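import Pool.Agent.R920.MT.Defs
import Pool.Agent.Y133.Half.PairPred
import Pool.Agent.Y121.AH.HR
import Pool.Agent.Y121.AHS.Conv

/-!
# The motivated classes as a system of classes
-/

open CategoryTheory AlgebraicGeometry TensorProduct

universe u v

namespace Pool.Agent.R920.MT

open Module
open Pool.Agent.H914 Pool.Agent.H914.VarClass Pool.Agent.H914.VarClass.Obj
  Pool.Agent.H914.WeilCohomology
open Pool.Agent.Y133.Half (ClassPred)

variable {k : Type u} [Field k] {𝒱 : VarClass k} {ops : CycleOps 𝒱}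
  {W : WeilCohomology.{u, v} ops} {X Y : 𝒱.Obj}

lemma IsSubspace.zero {K : Type v} [Field K] {A : Type v} [Ring A] [Algebra K A] {S : A → Prop}
    (h : IsSubspace K S) : S 0 := by
  obtain ⟨V, hV⟩ := h
  exact (hV _).1 V.zero_mem

lemma IsSubspace.add {K : Type v} [Field K] {A : Type v} [Ring A] [Algebra K A] {S : A → Prop}
    (h : IsSubspace K S) {a b : A} (ha : S a) (hb : S b) : S (a + b) := by
  obtain ⟨V, hV⟩ := h
  exact (hV _).1 (V.add_mem ((hV _).2 ha) ((hV _).2 hb))

lemma IsSubspace.smul {K : Type v} [Field K] {A : Type v} [Ring A] [Algebra K A] {S : A → Prop}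
    (h : IsSubspace K S) (r : K) {a : A} (ha : S a) : S (r • a) := by
  obtain ⟨V, hV⟩ := h
  exact (hV _).1 (V.smul_mem r ((hV _).2 ha))

/-- The whole cohomology of even degree. -/
lemma isSystem_gr (W : WeilCohomology.{u, v} ops) :
    IsSystem (W := W) (fun X j c => c ∈ W.gr X (2 * j)) where
  lin X j := ⟨W.gr X (2 * j), fun _ => Iff.rfl⟩
  cl _ _ _ hz := W.cl_mem hz
  mul X i j a b ha hb := by
    have := W.mul_mem ha hb
    rwa [show 2 * i + 2 * j = 2 * (i + j) by ring] at this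
  map _ _ f _ _ h := W.map_mem f h
  push X Y f j l a hl h := by
    have h2 := W.push_mem f h
    have e1 : ((2 * j : ℕ) : ℤ) + 2 * ((Y.dim : ℤ) - X.dim) = ((2 * l : ℕ) : ℤ) := by
      push_cast; omega
    rw [e1, grZ_natCast] at h2
    exact h2
  lift _ _ _ _ _ _ _ hx _ := hx

lemma IsMotivated.gr {j : ℕ} {c : W.H X} (h : IsMotivated W X j c) : c ∈ W.gr X (2 * j) :=
  h _ (isSystem_gr W)

/-- The motivated classes. -/
def motPred (W : WeilCohomology.{u, v} ops) : ClassPred W where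
  P := IsMotivated W
  gr := IsMotivated.gr
  zero := fun P hP => (hP.lin _ _).zero
  add := fun ha hb P hP => (hP.lin _ _).add (ha P hP) (hb P hP)
  smul := fun r _ ha P hP => (hP.lin _ _).smul r (ha P hP)
  cl := fun hz P hP => hP.cl _ _ _ hz
  mul := fun ha hb P hP => hP.mul _ _ _ _ _ (ha P hP) (hb P hP)
  map f _ _ h := fun P hP => hP.map _ _ f _ _ (h P hP)
  push f _ _ hl _ h := fun P hP => hP.push _ _ f _ _ _ hl (h P hP)

lemma IsMotivated.lift {D : X.Cycles} {j : ℕ} {x : W.H X} (hD : X.IsCyc 1 D)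
    (hL : HardLefschetz W X D) (hj : 2 * j ≤ X.dim) (hx : x ∈ W.gr X (2 * j))
    (h : IsMotivated W X (X.dim - j) (W.cl X D ^ (X.dim - 2 * j) * x)) : IsMotivated W X j x :=
  fun P hP => hP.lift _ _ _ hD hL hj _ hx (h P hP)

section Hodge

open Pool.Agent.Y121.AH

variable {W : WeilCohomology.{u, 0} ops} {T : HodgeTheory ops}

/-- The Hodge classes. -/
lemma isSystem_hodge (T : HodgeTheory ops) : IsSystem (W := T.W) (IsHodge T) where
  lin X j := ⟨hodgeSub T X j, fun _ => Iff.rfl⟩
  cl _ _ _ hz := IsHodge.cl hz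
  mul _ _ _ _ _ ha hb := IsHodge.mul ha hb
  map _ _ f _ _ h := IsHodge.map f h
  push _ _ f _ _ _ hl h := IsHodge.push f hl h
  lift X D j hD hL hj x hx h := by
    have hw : IsHodge T X (1 * (X.dim - 2 * j)) (T.W.cl X D ^ (X.dim - 2 * j)) :=
      (IsHodge.cl hD).pow _
    exact hodge_lift hw (fun y hy h => hl_inj hL hj hy h) hx (l := X.dim - j) h

/-- Motivated classes are Hodge classes. -/
lemma IsMotivated.hodge {j : ℕ} {c : T.W.H X} (h : IsMotivated T.W X j c) : IsHodge T X j c :=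
  h _ (isSystem_hodge T)

lemma lifts_mot (T : HodgeTheory ops) : Lifts T (motPred T.W) := by
  intro X D hD j hj v hv
  have h0 : v ∈ T.W.gr X (2 * X.dim - 2 * j) := by
    have := (motPred T.W).gr hv
    rwa [show 2 * (X.dim - j) = 2 * X.dim - 2 * j by omega] at this
  obtain ⟨x, hx, hxv⟩ := hl_surj hD.2.1 hj h0
  exact ⟨x, IsMotivated.lift hD.1 hD.2.1 hj hx (by rw [hxv]; exact hv), hxv⟩

/-- The intersection pairing on the motivated classes is nondegenerate. -/
lemma mot_nondeg (T : HodgeTheory ops) (X : 𝒱.Obj) : (motPred T.W).sys.Nondeg X :=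
  fun _ hx h => q_nondeg_sys (Q := motPred T.W) (fun h => IsMotivated.hodge h) (lifts_mot T) hx h

end Hodge

end Pool.Agent.R920.MT
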