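import Pool.Agent.H914R2.DDefs

/-!
# Motivated classes
-/

open CategoryTheory AlgebraicGeometry

universe u v

namespace Pool.Agent.R920.MT

open Pool.Agent.H914 Pool.Agent.H914.VarClass Pool.Agent.H914.VarClass.Obj
  Pool.Agent.H914.WeilCohomology

/-- The element `w ^ m * x`. -/
def powMul {A : Type v} [Ring A] (w : A) (m : ℕ) (x : A) : A := w ^ m * x

/-- The set is a subspace. -/
def IsSubspace (K : Type v) [Field K] {A : Type v} [Ring A] [Algebra K A] (S : A → Prop) : Prop :=
  ∃ V : Submodule K A, ∀ c, c ∈ V ↔ S c

variable {k : Type u} [Field k] {𝒱 : VarClass k} {ops : CycleOps 𝒱}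

/-- Properties of cohomology classes of codimension `j` on `X`. -/
abbrev Property (W : WeilCohomology.{u, v} ops) := ∀ X : 𝒱.Obj, ℕ → W.H X → Prop

variable {W : WeilCohomology.{u, v} ops}

/-- The classes with the property form a subspace. -/
def Linear (P : Property W) : Prop := ∀ (X : 𝒱.Obj) (j : ℕ), IsSubspace W.K (P X j)

/-- The classes of the algebraic cycles have the property. -/
def HasCycles (P : Property W) : Prop :=
  ∀ (X : 𝒱.Obj) (j : ℕ) (z : X.Cycles), X.IsCyc j z → P X j (W.cl X z)

/-- The property is stable under products. -/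
def MulClosed (P : Property W) : Prop :=
  ∀ (X : 𝒱.Obj) (i j : ℕ) (a b : W.H X), P X i a → P X j b → P X (i + j) (a * b)

/-- The property is stable under pull-backs. -/
def PullClosed (P : Property W) : Prop :=
  ∀ (X Y : 𝒱.Obj) (f : X ⟶ Y) (j : ℕ) (a : W.H Y), P Y j a → P X j (W.map f a)

/-- The property is stable under push-forwards. -/
def PushClosed (P : Property W) : Prop :=
  ∀ (X Y : 𝒱.Obj) (f : X ⟶ Y) (j l : ℕ) (a : W.H X), l + X.dim = j + Y.dim →
    P X j a → P Y l (W.push f a)

/-- The class `x` of degree `2 j` on `X` has the property if `L ^ (dim X - 2 j) x` has it, where `L` is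
the product with the class of a divisor `D` satisfying the hard Lefschetz theorem. -/
def LiftClosed (P : Property W) : Prop :=
  ∀ (X : 𝒱.Obj) (D : X.Cycles) (j : ℕ), X.IsCyc 1 D → HardLefschetz W X D → 2 * j ≤ X.dim →
    ∀ x ∈ W.gr X (2 * j), P X (X.dim - j) (powMul (W.cl X D) (X.dim - 2 * j) x) → P X j x

/-- All these conditions. -/
structure IsSystem (P : Property W) : Prop where
  lin : Linear P
  cl : HasCycles P
  mul : MulClosed P
  map : PullClosed P
  push : PushClosed P
  lift : LiftClosed P

/-- The motivated classes of codimension `j` on `X` (André): the classes which have all properties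
which satisfy these conditions. -/
def IsMotivated (W : WeilCohomology.{u, v} ops) (X : 𝒱.Obj) (j : ℕ) (c : W.H X) : Prop :=
  ∀ P : Property W, IsSystem P → P X j c

end Pool.Agent.R920.MT
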